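import Pool.Agent.Helper80.Stack.Goals

/-!
Packet COMP (MP_d6b153_co): stack layouts of the components give a stack layout.
-/

set_option autoImplicit false

namespace Pool.Agent.Helper27.Stk

open Classical
open Pool.Agent.Helper80.Stk

theorem good_ext {k : ℕ} (hk : 0 < k) {V : Type} {E : V → V → Prop} {S : Set V}
    (h : Good k S (fun a b => E a.1 b.1)) :
    ∃ (s : V → ℕ) (col : V → V → Fin k), (∀ a ∈ S, ∀ b ∈ S, s a = s b → a = b) ∧
      (∀ a ∈ S, ∀ b ∈ S, E a b → s a < s b) ∧
      ∀ a ∈ S, ∀ b ∈ S, ∀ x ∈ S, ∀ y ∈ S, E a b → E x y → col a b = col x y →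
        ¬ (s a < s x ∧ s x < s b ∧ s b < s y) := by
  obtain ⟨σ, col, h1, h2, h3⟩ := h
  have e1 : ∀ a (ha : a ∈ S), (if h : a ∈ S then σ ⟨a, h⟩ else 0) = σ ⟨a, ha⟩ :=
    fun a ha => dif_pos ha
  refine ⟨fun v => if h : v ∈ S then σ ⟨v, h⟩ else 0,
    fun v w => if h : v ∈ S ∧ w ∈ S then col ⟨v, h.1⟩ ⟨w, h.2⟩ else ⟨0, hk⟩, ?_, ?_, ?_⟩
  · intro a ha b hb hab
    simp only [e1 a ha, e1 b hb] at hab
    exact congrArg Subtype.val (h1 hab)
  · intro a ha b hb hab
    simp only [e1 a ha, e1 b hb]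
    exact h2 ⟨a, ha⟩ ⟨b, hb⟩ hab
  · intro a ha b hb x hx y hy hab hxy hcol
    simp only [e1 a ha, e1 b hb, e1 x hx, e1 y hy]
    apply h3 ⟨a, ha⟩ ⟨b, hb⟩ ⟨x, hx⟩ ⟨y, hy⟩ hab hxy
    have e2 : (if h : a ∈ S ∧ b ∈ S then col ⟨a, h.1⟩ ⟨b, h.2⟩ else ⟨0, hk⟩) =
        col ⟨a, ha⟩ ⟨b, hb⟩ := dif_pos ⟨ha, hb⟩
    have e3 : (if h : x ∈ S ∧ y ∈ S then col ⟨x, h.1⟩ ⟨y, h.2⟩ else ⟨0, hk⟩) =
        col ⟨x, hx⟩ ⟨y, hy⟩ := dif_pos ⟨hx, hy⟩
    simp only [e2, e3] at hcol
    exact hcol

theorem pf_Comp : StmtComp := by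
  intro k V _ E hk hall
  let st : Setoid V := Relation.EqvGen.setoid E
  have hst : ∀ a b : V, (Quotient.mk st a = Quotient.mk st b) ↔ Relation.EqvGen E a b := by
    intro a b
    exact Quotient.eq
  -- components
  have hcomp : ∀ q : Quotient st, Good k {v : V | Quotient.mk st v = q}
      (fun a b => E a.1 b.1) := by
    intro q
    obtain ⟨v, hv⟩ := Quotient.exists_rep q
    refine hall _ ⟨v, hv⟩ ?_
    intro T hT hcl
    have key : ∀ x y : V, Relation.EqvGen E x y → ∀ (hx : Quotient.mk st x = q)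
        (hy : Quotient.mk st y = q),
        ((⟨x, hx⟩ : {v : V | Quotient.mk st v = q}) ∈ T ↔
          (⟨y, hy⟩ : {v : V | Quotient.mk st v = q}) ∈ T) := by
      intro x y hxy
      induction hxy with
      | rel x y h => intro hx hy; exact hcl ⟨x, hx⟩ ⟨y, hy⟩ h
      | refl x => intro hx hy; exact Iff.rfl
      | symm x y h ih => intro hx hy; exact (ih hy hx).symm
      | trans x y z h1 h2 ih1 ih2 =>
        intro hx hz
        have hy : Quotient.mk st y = q := by
          rw [← hx]
          exact ((hst x y).mpr h1).symm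
        exact (ih1 hx hy).trans (ih2 hy hz)
    obtain ⟨⟨t, ht⟩, htT⟩ := hT
    ext ⟨s, hs⟩
    constructor
    · intro _; trivial
    · intro _
      exact (key t s ((hst t s).mp (ht.trans hs.symm)) ht hs).mp htT
  choose s col h1 h2 h3 using fun q => good_ext hk (hcomp q)
  obtain ⟨n, ⟨e⟩⟩ := Finite.exists_equiv_fin (Quotient st)
  let c : V → ℕ := fun v => (e (Quotient.mk st v) : ℕ)
  have hc : ∀ a b, c a = c b → Quotient.mk st a = Quotient.mk st b := fun a b h =>
    e.injective (Fin.ext h)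
  let f : V → ℕ := fun v => s (Quotient.mk st v) v
  obtain ⟨B, hB⟩ : ∃ B, ∀ v, f v < B := by
    have hfin : (Set.range f).Finite := Set.finite_range f
    obtain ⟨M, hM⟩ := hfin.bddAbove
    exact ⟨M + 1, fun v => Nat.lt_succ_of_le (hM ⟨v, rfl⟩)⟩
  have hE : ∀ a b, E a b → Quotient.mk st a = Quotient.mk st b := fun a b h =>
    (hst a b).mpr (Relation.EqvGen.rel a b h)
  have hle : ∀ a b, c a * B + f a < c b * B + f b → c a ≤ c b := by
    intro a b hab
    by_contra hlt
    have h4 : (c b + 1) * B ≤ c a * B := Nat.mul_le_mul_right B (by omega)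
    have h5 := hB b
    have h6 : (c b + 1) * B = c b * B + B := by ring
    omega
  refine ⟨fun v => c v * B + f v, fun a b => col (Quotient.mk st a) a b, ?_, ?_, ?_⟩
  · intro a b hab
    simp only at hab
    have h4 : c a = c b := by
      rcases lt_trichotomy (c a) (c b) with h | h | h
      · exfalso
        have h4 : (c a + 1) * B ≤ c b * B := Nat.mul_le_mul_right B (by omega)
        have h5 := hB a
        have h6 : (c a + 1) * B = c a * B + B := by ring
        omega
      · exact h
      · exfalso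
        have h4 : (c b + 1) * B ≤ c a * B := Nat.mul_le_mul_right B (by omega)
        have h5 := hB b
        have h6 : (c b + 1) * B = c b * B + B := by ring
        omega
    have h5 := hc a b h4
    rw [h4] at hab
    have h6 : f a = f b := by omega
    refine h1 (Quotient.mk st a) a rfl b h5.symm ?_
    have h7 : f b = s (Quotient.mk st a) b := by rw [h5]
    rw [← h7]
    exact h6
  · intro a b hab
    have h4 := hE a b hab
    have h5 := h2 (Quotient.mk st a) a rfl b h4.symm hab
    have h6 : c a = c b := by simp only [c, h4]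
    have h7 : f b = s (Quotient.mk st a) b := by rw [h4]
    simp only
    rw [h6]
    have h8 : f a < f b := by rw [h7]; exact h5
    omega
  · intro a b x y hab hxy hcol
    rintro ⟨g1, g2, g3⟩
    simp only at g1 g2 g3 hcol
    have i1 := hE a b hab
    have i2 := hE x y hxy
    have i3 := hle a x g1
    have i4 := hle x b g2
    have i5 : c a = c b := by simp only [c, i1]
    have i6 : c a = c x := by omega
    have i7 := hc a x i6
    have i8 : c x = c y := by simp only [c, i2]
    have j1 : f b = s (Quotient.mk st a) b := by rw [i1]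
    have j2 : f x = s (Quotient.mk st a) x := by rw [i7]
    have j3 : f y = s (Quotient.mk st a) y := by rw [i7, i2]
    have j4 : f a = s (Quotient.mk st a) a := rfl
    rw [← i7] at hcol
    refine h3 (Quotient.mk st a) a rfl b i1.symm x i7.symm y (i7.trans i2).symm hab hxy hcol ?_
    rw [← j1, ← j2, ← j3, ← j4]
    rw [← i8, ← i6] at g3
    rw [← i6] at g1 g2
    rw [← i5] at g2 g3
    exact ⟨by omega, by omega, by omega⟩

end Pool.Agent.Helper27.Stk
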